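import Mathlib
import Pool.Agent.Q225.SP.Tri
import Pool.Agent.Q225.SP.Local

/-!
# Triangle detection: readings weighted by dependence

The input is a list of the `m` edges of a simple graph on `2 m` vertices; the question is whether the
graph has a triangle. The items of the input are the `m` entries of the list.

A real formula (`Fml`, `Pool.Agent.Y638.RF.Defs`) is built from real constants, arbitrary real
functions of one item, and arbitrary real functions of `w` words with `m ^ c` values (words of
`c log₂ m` bits), where each word is an arbitrary function of one item, by sums, products, sign tests
`pos` (with the values `0`, `1`), and gates `sym` of any fan-in whose value is an arbitrary real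
function of the number of positive inputs. In a branching program (`BP`) every inner node tests
whether a real formula accepts.

A circuit (`Circuit`, `Pool.Agent.Q225.SP.Defs`) consists of any number of gates. Each gate is a
branching program of size at most `m ^ a` which may read the items and the bits computed by all
earlier gates (in the formulas, the bits of the earlier gates are further items). A bit may be used
any number of times. The load of a circuit is the number of readings, where the reading of an edge
counts one, and the reading of a bit counts the number of edges (entries of the list) on which this
bit depends (directly, or by other gates).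

1. Random circuits with error probability at most `1 / 3` need
   `m ^ 2 ≤ 6400 (a + w c) E [load]`, for `m ≥ 1000` and `1 ≤ a ≤ m / 500`.
2. If each bit that may be used depends on at most `d` edges, then the expected number of readings
   is at least `m ^ 2 / (6400 d (a + w c))`; so it is superlinear for `d = m ^ (1 - ε)`.

The starting results in this folder are about circuits over the full binary basis whose shared gates
depend on few edges (`LocalSharing`), and about branching programs over real formulas without shared
bits (`RealPrograms`).

Proof. Each edge of the list can ask for about `m log₂ m / 4` bits of the rest of the list. We count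
the functions of this edge which arise at the gates which depend on it, when the other items are
fixed: for given functions at the earlier gates, a gate is a branching program in one item (the edge
with the functions of the earlier dependent gates) and in independent parameters (everything else,
also the bits of the gates which do not depend on this edge), which has `2 ^ O (r (a + w c) log m)`
functions, if `r` readings depend on this edge (Warren's bound, `Pool.Agent.Y638.RF.Prog`). The sum of
these numbers `r` over all gates and all edges is the load.
-/

set_option autoImplicit false

namespace Pool.Agent.Results.MP_ad5e8e_lc.DependenceWeightedReads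

open Finset
open Pool.Agent.TH697.Form (IsProb)
open Pool.Agent.TH697.Row (ApproximatesOn)
open Pool.Agent.TH457.Ary.Tri (Edge Simple triangle)
open Pool.Agent.Q225.SP

theorem result :
    (∀ m a c w : ℕ, 1000 ≤ m → 1 ≤ a → 500 * a ≤ m → 1 ≤ w →
      ∀ (Ω : Type) [Fintype Ω] (μ : Ω → ℝ), IsProb μ →
        ∀ C : Ω → Circuit (Fin m) (fun _ => Edge (2 * m)) w (m ^ c), (∀ ω, (C ω).SizeLE (m ^ a)) →
          ApproximatesOn μ (fun ω => (C ω).eval) Simple triangle →
          (m : ℝ) ^ 2 ≤ 6400 * (a + w * c) * mean μ (fun ω => (C ω).load univ)) ∧
    (∀ m a c w d : ℕ, 1000 ≤ m → 1 ≤ a → 500 * a ≤ m → 1 ≤ w → 1 ≤ d →
      ∀ (Ω : Type) [Fintype Ω] (μ : Ω → ℝ), IsProb μ →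
        ∀ C : Ω → Circuit (Fin m) (fun _ => Edge (2 * m)) w (m ^ c), (∀ ω, (C ω).SizeLE (m ^ a)) →
          (∀ ω, (C ω).IsLocal univ d) →
          ApproximatesOn μ (fun ω => (C ω).eval) Simple triangle →
          (m : ℝ) ^ 2 ≤ 6400 * (a + w * c) * (d * mean μ (fun ω => (C ω).reads))) := by
  refine ⟨fun _ _ _ _ hm ha ham hw _ _ μ hμ C hC hF => tri_bound hm ha ham hw μ hμ C hC hF,
    fun m a c w d hm ha ham hw hd _ _ μ hμ C hC hL hF => ?_⟩
  exact local_bound μ hμ univ d hd C hL (by positivity)
    (tri_bound hm ha ham hw μ hμ C hC hF)

end Pool.Agent.Results.MP_ad5e8e_lc.DependenceWeightedReads
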