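import Mathlib
import Pool.Agent.Q225.SD.Tri

/-!
# Triangle detection: circuits of formulas with determinants, with shared bits

The input is a list of the `m` edges of a simple graph on `2 m` vertices; the question is whether the
graph has a triangle. The items of the input are the `m` entries of the list.

A formula (`Fml`, `Pool.Agent.Y649.DG.Defs`) is built from real constants, arbitrary real functions of
one item, and arbitrary real functions of `w` words with `m ^ c` values, where each word is an arbitrary
function of one item, by sign tests `pos` (with the values `0`, `1`), gates `sym` of any fan-in whose
value is an arbitrary real function of the number of positive inputs, determinants `det` of real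
matrices of any order whose entries are formulas (sums and products are determinants of order two),
and tests `reg`: is the matrix over an arbitrary field, of any order, whose entry `(a, b)` is `c' a b`
or `c a b`, according to whether the formula `(a, b)` is positive or not, regular?

A circuit (`Circuit`, `Pool.Agent.Q225.SD.Defs`) consists of any number of gates. Each gate is a
formula of size at most `m ^ a` which may read the items and the bits computed by all earlier gates
(in the formulas, the bits of the earlier gates are further items); its bit tells whether its value is
positive, and may be used any number of times. For an item `i`, let `squares i` be the sum over all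
gates of the square of the number of the leaves which see something that depends on item `i` (the item
itself, or the bit of a gate which depends on it, directly or by other gates). The load is the sum of
the square roots of these numbers over all edges.

1. Random circuits with error probability at most `1 / 3` need
   `m ^ 3 ≤ 52000000 (a + w c) E [load] ^ 2`, for `m ≥ 1000` and `a ≥ 1`: the load is at least of the
   order `m ^ (3 / 2)`.
2. If each gate has size at most `s`, and each bit that may be used depends on at most `d` edges of the
   list, then `m ^ 2 ≤ 52000000 (a + w c) s w d E [size]`; so the size is superlinear for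
   `s d = m ^ (1 - ε)`.
3. Nondeterministic networks which are guarded by real formulas (`Net`; for instance branching
   programs) are circuits without shared gates, and their load is at most `w` times their size.

The starting result `DeterminantGates` in this folder is about formulas, without shared bits.

Proof. Each edge of the list can ask for about `m log₂ m / 4` bits of the rest of the list. We count the functions of this edge which
arise at the gates which depend on it, when the other items are fixed: for given functions at the
earlier gates, a gate is a formula in one item (this item with the functions of the earlier dependent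
gates) and in independent parameters (everything else, also the bits of the gates which do not depend
on this item), and such a formula has `2 ^ O (r ^ 2 (a + w c) log m)` functions, if `r` leaves depend
on the item: the other parts of the formula enter a determinant with `r` live entries only through
`O (r ^ 2)` numbers (Schur complement; `Pool.Agent.Y649.DG.sub`, from the starting library, which rests
on the theorems of Warren and of Rónyai, Babai and Ganapathy on sign and zero patterns).
-/

set_option autoImplicit false

namespace Pool.Agent.Results.MP_ad5e8e_lc.SharedDeterminants

open Pool.Agent.TH697.Form (IsProb)
open Pool.Agent.TH697.Row (ApproximatesOn)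
open Pool.Agent.Y638.RF (Net)
open Finset
open Pool.Agent.TH457.Ary.Tri (Edge Simple triangle)
open Pool.Agent.Q225.SD

theorem result :
    (∀ m a c w : ℕ, 1000 ≤ m → 1 ≤ a → 1 ≤ w →
      ∀ (Ω : Type) [Fintype Ω] (μ : Ω → ℝ), IsProb μ →
        ∀ C : Ω → Circuit (Fin m) (fun _ => Edge (2 * m)) w (m ^ c), (∀ ω, (C ω).SizeLE (m ^ a)) →
          ApproximatesOn μ (fun ω => (C ω).eval) Simple triangle →
          (m : ℝ) ^ 3 ≤ 52000000 * (a + w * c) * mean μ (fun ω => (C ω).load univ) ^ 2) ∧
    (∀ m a c w s d : ℕ, 1000 ≤ m → 1 ≤ a → 1 ≤ w → 1 ≤ d → s ≤ m ^ a →
      ∀ (Ω : Type) [Fintype Ω] (μ : Ω → ℝ), IsProb μ →
        ∀ C : Ω → Circuit (Fin m) (fun _ => Edge (2 * m)) w (m ^ c), (∀ ω, (C ω).SizeLE s) →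
          (∀ ω, (C ω).IsLocal univ d) →
          ApproximatesOn μ (fun ω => (C ω).eval) Simple triangle →
          (m : ℝ) ^ 2 ≤ 52000000 * (a + w * c) *
            (s * w * d * mean μ (fun ω => ((C ω).size : ℝ)))) ∧
    (∀ (ι : Type) (D : ι → Type) [DecidableEq ι] (I : Finset ι) (w q : ℕ) (N : Net ι D w q),
      1 ≤ w → ∃ C : Circuit ι D w q, C.shared = 0 ∧ C.size ≤ N.size ∧ C.load I ≤ w * N.size ∧
        ∀ x, C.eval x = N.eval x) :=
  ⟨fun _ _ _ _ hm ha hw _ _ μ hμ C hC hF => tri_bound hm ha hw μ hμ C hC hF,
    fun _ _ _ _ _ _ hm ha hw hd hs _ _ μ hμ C hC hL hF =>
      tri_local hm ha hw hd hs μ hμ C hC hL hF,
    fun _ _ _ I _ _ N hw => exists_of_net I N hw⟩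

end Pool.Agent.Results.MP_ad5e8e_lc.SharedDeterminants
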