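import Pool.Agent.Q226.TRF.Main

/-!
# Triangle detection by circuits whose negations are unreliable needs `m ^ (3 / 2 - o(1))` gates

A graph with the vertex set `Fin n` is given by bits: for each pair `e` of vertices and each tag
`k < K`, the bit of the position `(e, k)` tells whether there is an edge `e` with the tag `k`. Only
inputs without parallel edges and with at most `m` edges are considered; the tags have no meaning.

The model: circuits of AND and OR gates of fan-in two whose inputs are these bits and their
negations. A randomised circuit is a finite family of such circuits, one of which is chosen uniformly
at random. All circuits of AND, OR and NOT gates can be brought into this form by doubling their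
size; no bound on the depth is assumed.

Faults: each negated input (the information that there is no such edge at a position) is stuck at
`0`, independently with probability `1 / D`. The other inputs and all gates are reliable. Faults can
only turn an accepting computation into a rejecting one.

Theorem. Let `θ < 3 / 2`. For all large `m`, all `n` with `m ≤ n ^ 2`, every fault rate `1 / D`,
however small, and `K ≥ D log (40 n ^ 2)` tags, a randomised circuit with fewer than `m ^ θ` gates
errs: it accepts a graph with a triangle with probability less than `2 / 3` under faults, or it
accepts a graph without triangles with probability more than `1 / 3` without faults. So triangle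
detection needs `m ^ (3 / 2 - o(1))` gates, which is superlinear in the length `O(D m log m)` of the
input for `n = √(2 m) + 1`.

* The exponent `3 / 2` is that of the algorithm of Itai and Rodeh; on dense graphs the cubic algorithm
  needs no negations and no tags.
* Without faults this would be an unconditional superlinear circuit lower bound, and the exponent
  `3 / 2` would be false: fast matrix multiplication gives circuits of size `m ^ 1.41`. So fast
  matrix multiplication cannot be made to work with negated inputs that are unreliable at a rate as
  small as one likes.
* For `D = 1` all negated inputs are `0`. This is the case of monotone circuits, part of the starting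
  result `RandomizedNotGates`, which is used in the proof.

The proof: every edge of a graph gets a random tag. The negated inputs of the positions that the
other pairs would get are as good as faulty ones, because with high probability every pair has a
faulty position. So all negated inputs that depend on the graph can be replaced by `0`, and this
gives a randomised circuit without negations.
-/

set_option autoImplicit false

namespace Pool.Agent.Results.MP_ad5e8e_lc.UnreliableNegations

open Finset Filter Pool.Agent.H520R2.NM Pool.Agent.Q226.FL2 Pool.Agent.Q226.TRF

open Classical in
/-- Let `0 < θ < 3 / 2`, `m` large, `m ≤ n ^ 2`, `D ≥ 1` and `K ≥ D log (40 n ^ 2)`. Let `C ω`,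
`ω ∈ Ω`, be circuits of AND and OR gates on the bits of the positions and their negations, with
output wires `out ω` and with fewer than `m ^ θ` gates. Then there is an input with at most `m` edges
and without parallel edges such that either its graph has a triangle and is accepted with
probability less than `2 / 3` over `ω` and the faults, where each negated input is stuck at `0` with
probability `1 / D`, or its graph has no triangle and is accepted with probability more than `1 / 3`
over `ω` without faults. -/
theorem result (θ : ℝ) (hθ : 0 < θ) (hθ2 : θ < 3 / 2) :
    ∀ᶠ m : ℕ in atTop, ∀ n : ℕ, m ≤ n ^ 2 → ∀ D K : ℕ, 1 ≤ D →
      D * Real.log (40 * n ^ 2) ≤ K →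
      ∀ (Ω : Type) [Fintype Ω] [Nonempty Ω] (N : Ω → ℕ)
        (C : ∀ ω, Circuit ((Sym2 (Fin n) × Fin K) × Bool) (N ω))
        (out : ∀ ω, Wire ((Sym2 (Fin n) × Fin K) × Bool) (N ω)),
      (∀ ω, (C ω).fanins = []) → (∀ ω, ((C ω).size : ℝ) < (m : ℝ) ^ θ) →
      ∃ x : Sym2 (Fin n) × Fin K → Bool, NoParallelEdges x ∧
        (univ.filter (fun p => x p = true)).card ≤ m ∧
        ((¬ (graph x).CliqueFree 3 ∧
          faultyProbability (fun ω y => (out ω).eval y ((C ω).vals y) = true) D x < 2 / 3) ∨
        ((graph x).CliqueFree 3 ∧
          1 / 3 < probability (fun ω y => (out ω).eval y ((C ω).vals y) = true) x)) :=
  main θ hθ hθ2

end Pool.Agent.Results.MP_ad5e8e_lc.UnreliableNegations
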