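import Mathlib
import Pool.Agent.Q225.LS.Good

/-!
# Triangle detection: few qubits

The input is a list of the `m` edges of a simple graph on `2 m` vertices; the question is whether the
graph has a triangle. The items of the input are the `m` entries of the list.

The memory of a machine (`Machine`, `Pool.Agent.Q225.LS.Defs`) is a vector with the coordinates `S`
over a field. In each step one item is read, and the vector is multiplied by a matrix which is an
arbitrary function of this item; the order of the reads is fixed in advance (but it may be random, since
we consider random machines). At the end a linear function of the vector is computed; the machine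
accepts if its value is positive (`positive`, over the real numbers), or if it is not zero
(`nonzero`, over any field). So there are no restrictions on the numbers in the memory and on the
computation, and the gap between acceptance and rejection may be arbitrarily small. Such machines
contain all oblivious algorithms with `log₂ |S|` bits of memory, deterministic, randomised with
unbounded error, nondeterministic or counting modulo a prime. In a quantum machine (`Quantum`) the
memory is a vector in `ℂ ^ S` (`k` qubits: `|S| = 2 ^ k`), the matrices are arbitrary complex matrices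
(so postselection is allowed), and the machine accepts if the last state is more than half in the
accepting basis states.

Result: random machines with error probability at most `1 / 3` and at most `m ^ a` reads need
`m ^ 2 / (245 a) ≤ |S| ^ 2 (E [reads] + m)`, for `m ≥ 1000` and `a ≥ 1`, and quantum
machines need `m ^ 2 / (245 a) ≤ 16 |S| ^ 4 (E [reads] + m)`. So triangle detection needs
`m ^ (2 - o (1))` reads with `o (log m)` qubits, and it is superlinear for all `k ≤ (1 / 4 - ε) log₂ m`
qubits.

Proof. Each edge of the list can ask for about `m log₂ m / 4` bits of the rest of the list. If the other items are fixed and `e_i` is read `r` times, then the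
value of the machine is a polynomial of degree `r + 1` in `(r + 1) |S| ^ 2` parameters, the entries of
the matrices of the steps between these reads. So `e_i` has at most `N ^ ((r + 1) |S| ^ 2)` functions,
`log₂ N = O (a log₂ m)`, by the theorems of Warren (signs) and of Rónyai, Babai and Ganapathy (zero
patterns). The state of a quantum machine is replaced by its tensor square over the real numbers.
-/

set_option autoImplicit false

namespace Pool.Agent.Results.MP_ad5e8e_lc.VectorMemory

open Pool.Agent.TH697.Form (IsProb)
open Pool.Agent.TH697.Row (ApproximatesOn)
open Finset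
open Pool.Agent.TH457.Ary.Tri (Edge Simple triangle)
open Pool.Agent.Q225.LS

theorem result : ∀ m a : ℕ, 1000 ≤ m → 1 ≤ a →
    ∀ (S : Type) [Fintype S] [DecidableEq S] (Ω : Type) [Fintype Ω] (μ : Ω → ℝ), IsProb μ →
      (∀ C : Ω → Machine (Fin m) (fun _ => Edge (2 * m)) S ℝ,
        (∀ ω, (C ω).reads univ ≤ m ^ a) →
        ApproximatesOn μ (fun ω => (C ω).positive) Simple triangle →
        (m : ℝ) ^ 2 / (245 * a) ≤
          (Fintype.card S : ℝ) ^ 2 * (mean μ (fun ω => (C ω).reads univ) + m)) ∧
      (∀ (F : Type) [Field F] (C : Ω → Machine (Fin m) (fun _ => Edge (2 * m)) S F),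
        (∀ ω, (C ω).reads univ ≤ m ^ a) →
        ApproximatesOn μ (fun ω => (C ω).nonzero) Simple triangle →
        (m : ℝ) ^ 2 / (245 * a) ≤
          (Fintype.card S : ℝ) ^ 2 * (mean μ (fun ω => (C ω).reads univ) + m)) ∧
      (∀ C : Ω → Quantum (Fin m) (fun _ => Edge (2 * m)) S,
        (∀ ω, (C ω).reads univ ≤ m ^ a) →
        ApproximatesOn μ (fun ω => (C ω).eval) Simple triangle →
        (m : ℝ) ^ 2 / (245 * a) ≤
          16 * (Fintype.card S : ℝ) ^ 4 * (mean μ (fun ω => (C ω).reads univ) + m)) := by
  intro m a hm ha S _ _ Ω _ μ hμ
  obtain ⟨k, hk, hk1, hk2⟩ := Pool.Agent.TH457.Ary.Sat.exists_k (m := m) (by omega)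
  have hl1 := Pool.Agent.Y638.RF.Tri.logb_m hk (by omega) hk2
  have hT := Pool.Agent.TH457.Ary.Tri.card_T (m := m) (k := k) (by omega) hk1
  have hg := good_tri hm ha hk hl1 hT
  have hk := fun (i : Fin m) (_ : i ∈ (univ : Finset (Fin m))) =>
    Pool.Agent.Y638.RF.Tri.asks (m := m) (k := k) (by omega) hk1 i
  refine ⟨fun C hL hF => ?_, fun F _ C hL hF => ?_, fun C hL hF => ?_⟩
  · have h := positive_bound hg hk μ hμ C hL hF
    rwa [card_univ (α := Fin m), Fintype.card_fin] at h
  · have h := nonzero_bound hg hk μ hμ C hL hF
    rwa [card_univ (α := Fin m), Fintype.card_fin] at h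
  · have h := quantum_bound hg hk μ hμ C hL hF
    rwa [card_univ (α := Fin m), Fintype.card_fin] at h

end Pool.Agent.Results.MP_ad5e8e_lc.VectorMemory
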